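import Mathlib

/-!
# A conic-line arrangement of the weak combinatorial type `W`

Points of the projective plane are given by nonzero vectors of `ℂ³` up to nonzero factors. The
eight components are indexed by `Fin 4 × Bool`: the conic `C_{i+1}` is `f i true = 0`, the line
`L_{i+1}` is `f i false = 0`.
-/

set_option autoImplicit false

namespace Pool.Agent.Results.MP_0c03d4_ag.Realizable

open MvPolynomial

/-- forms in the homogeneous coordinates `x = X 0`, `y = X 1`, `z = X 2` -/
abbrev R3 := MvPolynomial (Fin 3) ℂ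

/-- the vectors `p` and `q` give the same point of the projective plane -/
def SamePoint (p q : Fin 3 → ℂ) : Prop := ∃ c : ℂ, c ≠ 0 ∧ p = c • q

/-- the gradient of the form `f` at `p`; if it is nonzero, the curve `f = 0` is smooth at `p` and the
gradient gives its tangent line -/
noncomputable def grad (f : R3) (p : Fin 3 → ℂ) : Fin 3 → ℂ := fun a => eval p (pderiv a f)

/-- The incidences of the nine quadruple points of `W`. For each `i` exactly one of the conic
`C_{i+1}` and the line `L_{i+1}` passes through the `k`-th of these points: the conic if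
`passes k i = true`, the line if `passes k i = false`. -/
def passes : Fin 9 → Fin 4 → Bool := ![
  ![true, true, false, false],   -- `C₁, C₂, L₃, L₄`
  ![true, true, true, true],     -- `C₁, C₂, C₃, C₄`
  ![true, true, true, true],     -- `C₁, C₂, C₃, C₄`
  ![true, true, true, true],     -- `C₁, C₂, C₃, C₄`
  ![false, false, true, true],   -- `L₁, L₂, C₃, C₄`
  ![true, false, false, true],   -- `C₁, L₂, L₃, C₄`
  ![true, false, true, false],   -- `C₁, L₂, C₃, L₄`
  ![false, true, false, true],   -- `L₁, C₂, L₃, C₄`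
  ![false, true, true, false]]   -- `L₁, C₂, C₃, L₄`

/-- The curve `∏ f i b = 0` has the weak combinatorial type `W`, with tangency points `T i` (of
type `A₃`) and ordinary quadruple points `P k`: the components are smooth conics and lines, the line
`L_{i+1}` and the conic `C_{i+1}` are tangent at `T i` and no other component passes through `T i`;
through `P k` pass exactly the four components given by `passes k`, with pairwise distinct tangent
lines; and through any other point of the plane there passes at most one component (so that `L_{i+1}`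
and `C_{i+1}` have only the point `T i` in common and there are no further singular points). -/
structure HasTypeW (f : Fin 4 → Bool → R3) (T : Fin 4 → Fin 3 → ℂ) (P : Fin 9 → Fin 3 → ℂ) :
    Prop where
  conic : ∀ i, (f i true).IsHomogeneous 2
  line : ∀ i, (f i false).IsHomogeneous 1
  smooth : ∀ i b p, p ≠ 0 → eval p (f i b) = 0 → grad (f i b) p ≠ 0
  T_ne : ∀ i, T i ≠ 0
  P_ne : ∀ k, P k ≠ 0
  distinct : ∀ k l, k ≠ l → ¬ SamePoint (P k) (P l)
  through_T : ∀ i j b, eval (T i) (f j b) = 0 ↔ j = i
  tangent : ∀ i, ¬ LinearIndependent ℂ ![grad (f i true) (T i), grad (f i false) (T i)]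
  through_P : ∀ k j b, eval (P k) (f j b) = 0 ↔ b = passes k j
  transversal : ∀ k i j, i ≠ j →
    LinearIndependent ℂ ![grad (f i (passes k i)) (P k), grad (f j (passes k j)) (P k)]
  other : ∀ p, p ≠ 0 → (∀ i, ¬ SamePoint p (T i)) → (∀ k, ¬ SamePoint p (P k)) →
    ∀ i b j c, eval p (f i b) = 0 → eval p (f j c) = 0 → i = j ∧ b = c

/-- the fourth line -/
noncomputable def w4 : R3 := -(X 0 + X 1 + X 2)

/-- the components -/
noncomputable def F : Fin 4 → Bool → R3 := fun i b =>
  match i, b with
  | 0, false => X 0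
  | 1, false => X 1
  | 2, false => X 2
  | 3, false => w4
  | 0, true => C 4 * (X 2 * w4) + X 1 * w4 + X 1 * X 2
  | 1, true => C (-4) * (X 2 * w4) + C (3 - 4 * Complex.I) * (X 0 * w4) +
      C (3 + 4 * Complex.I) * (X 0 * X 2)
  | 2, true => C (-1) * (X 1 * w4) + C (-(3 - 4 * Complex.I)) * (X 0 * w4) +
      C (2 * Complex.I) * (X 0 * X 1)
  | 3, true => C (-1) * (X 1 * X 2) + C (-(3 + 4 * Complex.I)) * (X 0 * X 2) +
      C (-(2 * Complex.I)) * (X 0 * X 1)

/-- the values of the components -/
noncomputable def E (i : Fin 4) (b : Bool) (x y z w : ℂ) : ℂ :=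
  match i, b with
  | 0, false => x
  | 1, false => y
  | 2, false => z
  | 3, false => w
  | 0, true => 4 * (z * w) + y * w + y * z
  | 1, true => -4 * (z * w) + (3 - 4 * Complex.I) * (x * w) + (3 + 4 * Complex.I) * (x * z)
  | 2, true => -(y * w) + -(3 - 4 * Complex.I) * (x * w) + (2 * Complex.I) * (x * y)
  | 3, true => -(y * z) + -(3 + 4 * Complex.I) * (x * z) + -(2 * Complex.I) * (x * y)

lemma eval_F (i : Fin 4) (b : Bool) (p : Fin 3 → ℂ) :
    eval p (F i b) = E i b (p 0) (p 1) (p 2) (-(p 0 + p 1 + p 2)) := by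
  fin_cases i <;> cases b <;> simp [F, E, w4]

/-- the gradients of the components -/
noncomputable def G (i : Fin 4) (b : Bool) (x y z : ℂ) : Fin 3 → ℂ :=
  match i, b with
  | 0, false => ![1, 0, 0]
  | 1, false => ![0, 1, 0]
  | 2, false => ![0, 0, 1]
  | 3, false => ![-1, -1, -1]
  | 0, true => ![-4 * z - y, -x - 2 * y - 4 * z, -4 * x - 4 * y - 8 * z]
  | 1, true => ![4 * z - (3 - 4 * Complex.I) * (2 * x + y + z) + (3 + 4 * Complex.I) * z,
      4 * z - (3 - 4 * Complex.I) * x,
      4 * (x + y + 2 * z) - (3 - 4 * Complex.I) * x + (3 + 4 * Complex.I) * x]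
  | 2, true => ![y + (3 - 4 * Complex.I) * (2 * x + y + z) + 2 * Complex.I * y,
      x + 2 * y + z + (3 - 4 * Complex.I) * x + 2 * Complex.I * x,
      y + (3 - 4 * Complex.I) * x]
  | 3, true => ![-(3 + 4 * Complex.I) * z - 2 * Complex.I * y,
      -z - 2 * Complex.I * x, -y - (3 + 4 * Complex.I) * x]

lemma grad_F (i : Fin 4) (b : Bool) (p : Fin 3 → ℂ) :
    grad (F i b) p = G i b (p 0) (p 1) (p 2) := by
  have h01 : (Pi.single (0 : Fin 3) (1 : R3) : Fin 3 → R3) 1 = 0 := by simp
  ext a
  fin_cases i <;> cases b <;> fin_cases a <;>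
    simp [F, G, w4, grad, pderiv_X] <;> ring

/-- the tangency points -/
noncomputable def T : Fin 4 → Fin 3 → ℂ := ![
  ![0, -2, 1], ![2, 0, -(1 + 2 * Complex.I)], ![1, -2 + Complex.I, 0],
  ![1, -2 - Complex.I, 1 + Complex.I]]

/-- the quadruple points -/
noncomputable def P : Fin 9 → Fin 3 → ℂ := ![
  ![1, -1, 0],
  ![1, -5, 2 - Complex.I],
  ![2, -2 - 4 * Complex.I, -1 + 3 * Complex.I],
  ![2, -2 + 4 * Complex.I, 1 - Complex.I],
  ![0, 0, 1],
  ![1, 0, 0],
  ![1, 0, -1],
  ![0, 1, 0],
  ![0, 1, -1]]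

lemma pow_two_I : Complex.I * Complex.I = -1 := Complex.I_mul_I

/-- nonvanishing of a minor gives independence -/
lemma li_of {p q : Fin 3 → ℂ} (a b : Fin 3) (h : p a * q b - p b * q a ≠ 0) :
    LinearIndependent ℂ ![p, q] := by
  rw [LinearIndependent.pair_iff]
  intro s t hst
  have h1 := congrFun hst a
  have h2 := congrFun hst b
  simp only [Pi.add_apply, Pi.smul_apply, smul_eq_mul, Pi.zero_apply] at h1 h2
  constructor
  · have : s * (p a * q b - p b * q a) = 0 := by linear_combination q b * h1 - q a * h2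
    exact (mul_eq_zero.1 this).resolve_right h
  · have : t * (p a * q b - p b * q a) = 0 := by linear_combination p a * h2 - p b * h1
    exact (mul_eq_zero.1 this).resolve_right h

lemma not_same_of {p q : Fin 3 → ℂ} (a b : Fin 3) (h : p a * q b - p b * q a ≠ 0) :
    ¬ SamePoint p q := by
  rintro ⟨c, -, rfl⟩
  apply h
  simp only [Pi.smul_apply, smul_eq_mul]
  ring

lemma conic_F (i : Fin 4) : (F i true).IsHomogeneous 2 := by
  have hX : ∀ a : Fin 3, (X a : R3).IsHomogeneous 1 := fun a => isHomogeneous_X _ a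
  have hw : w4.IsHomogeneous 1 := (((hX 0).add (hX 1)).add (hX 2)).neg
  have hC : ∀ (c : ℂ) {f : R3}, f.IsHomogeneous 2 → (C c * f).IsHomogeneous 2 := by
    intro c f hf
    have := (isHomogeneous_C (Fin 3) c).mul hf
    simpa using this
  fin_cases i
  · exact ((hC _ ((hX 2).mul hw)).add ((hX 1).mul hw)).add ((hX 1).mul (hX 2))
  · exact ((hC _ ((hX 2).mul hw)).add (hC _ ((hX 0).mul hw))).add (hC _ ((hX 0).mul (hX 2)))
  · exact ((hC _ ((hX 1).mul hw)).add (hC _ ((hX 0).mul hw))).add (hC _ ((hX 0).mul (hX 1)))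
  · exact ((hC _ ((hX 1).mul (hX 2))).add (hC _ ((hX 0).mul (hX 2)))).add
      (hC _ ((hX 0).mul (hX 1)))

lemma line_F (i : Fin 4) : (F i false).IsHomogeneous 1 := by
  have hX : ∀ a : Fin 3, (X a : R3).IsHomogeneous 1 := fun a => isHomogeneous_X _ a
  fin_cases i
  · exact hX 0
  · exact hX 1
  · exact hX 2
  · exact (((hX 0).add (hX 1)).add (hX 2)).neg

lemma smooth_F (i : Fin 4) (b : Bool) (p : Fin 3 → ℂ) (hp : p ≠ 0) : grad (F i b) p ≠ 0 := by
  rw [grad_F]
  intro h
  have h0 := congrFun h 0
  have h1 := congrFun h 1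
  have h2 := congrFun h 2
  have key : b = true → p 0 = 0 ∧ p 1 = 0 ∧ p 2 = 0 := by
    intro hb
    subst hb
    fin_cases i <;> simp only [G, Matrix.cons_val_zero, Matrix.cons_val_one, Matrix.cons_val_two,
      Matrix.head_cons, Matrix.tail_cons, Matrix.cons_val, Pi.zero_apply, Fin.zero_eta,
      Fin.mk_one, Fin.reduceFinMk] at h0 h1 h2 <;>
    · have r0 := congrArg Complex.re h0
      have r1 := congrArg Complex.re h1
      have r2 := congrArg Complex.re h2
      have i0 := congrArg Complex.im h0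
      have i1 := congrArg Complex.im h1
      have i2 := congrArg Complex.im h2
      simp at r0 r1 r2 i0 i1 i2
      refine ⟨Complex.ext ?_ ?_, Complex.ext ?_ ?_, Complex.ext ?_ ?_⟩ <;>
        simp only [Complex.zero_re, Complex.zero_im] <;> linarith
  cases b
  · fin_cases i <;> simp [G] at h0 h1 h2
  · obtain ⟨a0, a1, a2⟩ := key rfl
    apply hp
    ext a
    fin_cases a <;> simp [a0, a1, a2]

lemma T_ne (i : Fin 4) : T i ≠ 0 := by
  intro h
  fin_cases i
  · have := congrFun h 1
    simp [T] at this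
  · have := congrFun h 0
    simp [T] at this
  · have := congrFun h 0
    simp [T] at this
  · have := congrFun h 0
    simp [T] at this

lemma P_ne (k : Fin 9) : P k ≠ 0 := by
  intro h
  have h0 := congrFun h 0
  have h1 := congrFun h 1
  have h2 := congrFun h 2
  fin_cases k <;> simp [P] at h0 h1 h2

lemma through_T (i j : Fin 4) (b : Bool) : eval (T i) (F j b) = 0 ↔ j = i := by
  rw [eval_F]
  fin_cases i <;> fin_cases j <;> cases b <;>
    simp only [E, T, Matrix.cons_val_zero, Matrix.cons_val_one, Matrix.cons_val_two,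
      Matrix.head_cons, Matrix.tail_cons, Matrix.cons_val, Fin.zero_eta,
      Fin.mk_one, Fin.reduceFinMk] <;>
    (try norm_num [Complex.ext_iff]) <;> (try decide)

lemma through_P (k : Fin 9) (j : Fin 4) (b : Bool) :
    eval (P k) (F j b) = 0 ↔ b = passes k j := by
  rw [eval_F]
  fin_cases k <;> fin_cases j <;> cases b <;>
    simp only [E, P, passes, Matrix.cons_val_zero, Matrix.cons_val_one, Matrix.cons_val_two,
      Matrix.head_cons, Matrix.tail_cons, Matrix.cons_val, Fin.zero_eta,
      Fin.mk_one, Fin.reduceFinMk] <;>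
    (try norm_num [Complex.ext_iff]) <;> (try decide)

lemma tangent_T (i : Fin 4) :
    ¬ LinearIndependent ℂ ![grad (F i true) (T i), grad (F i false) (T i)] := by
  rw [LinearIndependent.pair_iff, grad_F, grad_F]
  intro h
  have key : ∀ t : ℂ, G i true (T i 0) (T i 1) (T i 2) = -t • G i false (T i 0) (T i 1) (T i 2) →
      False := by
    intro t ht
    refine one_ne_zero (h 1 t ?_).1
    rw [ht]
    simp
  fin_cases i
  · apply key 2
    ext a
    fin_cases a <;>
    simp only [G, T, Matrix.cons_val_zero, Matrix.cons_val_one, Matrix.cons_val_two,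
      Matrix.head_cons, Matrix.tail_cons, Matrix.cons_val, Fin.zero_eta,
      Fin.mk_one, Fin.reduceFinMk, Pi.smul_apply, smul_eq_mul] <;>
    norm_num [Complex.ext_iff]
  · apply key 10
    ext a
    fin_cases a <;>
    simp only [G, T, Matrix.cons_val_zero, Matrix.cons_val_one, Matrix.cons_val_two,
      Matrix.head_cons, Matrix.tail_cons, Matrix.cons_val, Fin.zero_eta,
      Fin.mk_one, Fin.reduceFinMk, Pi.smul_apply, smul_eq_mul] <;>
    norm_num [Complex.ext_iff]
  · apply key (-(1 - 3 * Complex.I))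
    ext a
    fin_cases a <;>
    simp only [G, T, Matrix.cons_val_zero, Matrix.cons_val_one, Matrix.cons_val_two,
      Matrix.head_cons, Matrix.tail_cons, Matrix.cons_val, Fin.zero_eta,
      Fin.mk_one, Fin.reduceFinMk, Pi.smul_apply, smul_eq_mul] <;>
    norm_num [Complex.ext_iff]
  · apply key (-(1 + 3 * Complex.I))
    ext a
    fin_cases a <;>
    simp only [G, T, Matrix.cons_val_zero, Matrix.cons_val_one, Matrix.cons_val_two,
      Matrix.head_cons, Matrix.tail_cons, Matrix.cons_val, Fin.zero_eta,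
      Fin.mk_one, Fin.reduceFinMk, Pi.smul_apply, smul_eq_mul] <;>
    norm_num [Complex.ext_iff]

lemma distinct_P (k l : Fin 9) (h : k ≠ l) : ¬ SamePoint (P k) (P l) := by
  rintro ⟨c, -, hc⟩
  have h0 := congrFun hc 0
  have h1 := congrFun hc 1
  have h2 := congrFun hc 2
  simp only [Pi.smul_apply, smul_eq_mul] at h0 h1 h2
  fin_cases k <;> fin_cases l <;>
    first
    | exact absurd rfl h
    | (exfalso
       simp [P, Complex.ext_iff] at h0 h1 h2
       done)
    | (exfalso
       simp [P, Complex.ext_iff] at h0 h1 h2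
       linarith)

lemma transversal_P (k : Fin 9) (i j : Fin 4) (hij : i ≠ j) :
    LinearIndependent ℂ ![grad (F i (passes k i)) (P k), grad (F j (passes k j)) (P k)] := by
  rw [grad_F, grad_F]
  by_contra hcon
  have m01 : ∀ a b : Fin 3, G i (passes k i) (P k 0) (P k 1) (P k 2) a *
      G j (passes k j) (P k 0) (P k 1) (P k 2) b - G i (passes k i) (P k 0) (P k 1) (P k 2) b *
      G j (passes k j) (P k 0) (P k 1) (P k 2) a = 0 := by
    intro a b
    by_contra hne
    exact hcon (li_of a b hne)
  have a01 := m01 0 1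
  have a02 := m01 0 2
  have a12 := m01 1 2
  clear m01 hcon
  fin_cases k <;> fin_cases i <;> fin_cases j <;>
    first
    | exact absurd rfl hij
    | (exfalso
       simp only [G, P, passes, Matrix.cons_val_zero, Matrix.cons_val_one, Matrix.cons_val_two,
         Matrix.head_cons, Matrix.tail_cons, Matrix.cons_val, Fin.zero_eta,
         Fin.mk_one, Fin.reduceFinMk] at a01
       norm_num [Complex.ext_iff] at a01
       done)
    | (exfalso
       simp only [G, P, passes, Matrix.cons_val_zero, Matrix.cons_val_one, Matrix.cons_val_two,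
         Matrix.head_cons, Matrix.tail_cons, Matrix.cons_val, Fin.zero_eta,
         Fin.mk_one, Fin.reduceFinMk] at a02
       norm_num [Complex.ext_iff] at a02
       done)
    | (exfalso
       simp only [G, P, passes, Matrix.cons_val_zero, Matrix.cons_val_one, Matrix.cons_val_two,
         Matrix.head_cons, Matrix.tail_cons, Matrix.cons_val, Fin.zero_eta,
         Fin.mk_one, Fin.reduceFinMk] at a12
       norm_num [Complex.ext_iff] at a12
       done)

lemma same_mk {p q : Fin 3 → ℂ} (hp : p ≠ 0) (c : ℂ) (h0 : p 0 = c * q 0) (h1 : p 1 = c * q 1)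
    (h2 : p 2 = c * q 2) : SamePoint p q := by
  refine ⟨c, ?_, ?_⟩
  · rintro rfl
    apply hp
    ext a
    fin_cases a
    · simpa using h0
    · simpa using h1
    · simpa using h2
  · ext a
    fin_cases a
    · simpa using h0
    · simpa using h1
    · simpa using h2

lemma I2 : Complex.I ^ 2 = -1 := Complex.I_sq

section other

variable {p : Fin 3 → ℂ} (hp : p ≠ 0) (hT : ∀ i, ¬ SamePoint p (T i))
  (hP : ∀ k, ¬ SamePoint p (P k))

include hp hP in
lemma no_two_lines {x y z w : ℂ} (hx : x = p 0) (hy : y = p 1) (hz : z = p 2)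
    (hw : w = -(x + y + z)) :
    ¬ (x = 0 ∧ y = 0) ∧ ¬ (x = 0 ∧ z = 0) ∧ ¬ (x = 0 ∧ w = 0) ∧ ¬ (y = 0 ∧ z = 0) ∧
      ¬ (y = 0 ∧ w = 0) ∧ ¬ (z = 0 ∧ w = 0) := by
  refine ⟨?_, ?_, ?_, ?_, ?_, ?_⟩
  · rintro ⟨h1, h2⟩
    refine hP 4 (same_mk hp z ?_ ?_ ?_)
    · rw [← hx, h1]; simp [P]
    · rw [← hy, h2]; simp [P]
    · rw [← hz]; simp [P]
  · rintro ⟨h1, h2⟩
    refine hP 7 (same_mk hp y ?_ ?_ ?_)
    · rw [← hx, h1]; simp [P]
    · rw [← hy]; simp [P]
    · rw [← hz, h2]; simp [P]
  · rintro ⟨h1, h2⟩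
    refine hP 8 (same_mk hp y ?_ ?_ ?_)
    · rw [← hx, h1]; simp [P]
    · rw [← hy]; simp [P]
    · rw [← hz]; simp [P]; linear_combination hw - h2 - h1
  · rintro ⟨h1, h2⟩
    refine hP 5 (same_mk hp x ?_ ?_ ?_)
    · rw [← hx]; simp [P]
    · rw [← hy, h1]; simp [P]
    · rw [← hz, h2]; simp [P]
  · rintro ⟨h1, h2⟩
    refine hP 6 (same_mk hp x ?_ ?_ ?_)
    · rw [← hx]; simp [P]
    · rw [← hy, h1]; simp [P]
    · rw [← hz]; simp [P]; linear_combination hw - h2 - h1
  · rintro ⟨h1, h2⟩
    refine hP 0 (same_mk hp x ?_ ?_ ?_)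
    · rw [← hx]; simp [P]
    · rw [← hy]; simp [P]; linear_combination hw - h2 - h1
    · rw [← hz, h1]; simp [P]

include hp hT hP in
lemma no_line_conic (i j : Fin 4) (h1 : eval p (F i false) = 0) (h2 : eval p (F j true) = 0) :
    False := by
  obtain ⟨x, hx⟩ : ∃ x, x = p 0 := ⟨_, rfl⟩
  obtain ⟨y, hy⟩ : ∃ y, y = p 1 := ⟨_, rfl⟩
  obtain ⟨z, hz⟩ : ∃ z, z = p 2 := ⟨_, rfl⟩
  obtain ⟨w, hw⟩ : ∃ w, w = -(x + y + z) := ⟨_, rfl⟩
  obtain ⟨hxy, hxz, hxw, hyz, hyw, hzw⟩ := no_two_lines hp hP hx hy hz hw
  rw [eval_F, ← hx, ← hy, ← hz, ← hw] at h1 h2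
  have c1 : (3 - 4 * Complex.I) ≠ 0 := by
    intro h
    simpa using congrArg Complex.re h
  have c2 : (3 + 4 * Complex.I) ≠ 0 := by
    intro h
    simpa using congrArg Complex.re h
  have c3 : (2 * Complex.I) ≠ 0 := by
    simp
  fin_cases i
  · have hx0 : x = 0 := by simpa [E] using h1
    have hy0 : y ≠ 0 := fun h => hxy ⟨hx0, h⟩
    have hz0 : z ≠ 0 := fun h => hxz ⟨hx0, h⟩
    have hw0 : w ≠ 0 := fun h => hxw ⟨hx0, h⟩
    fin_cases j <;> simp only [E, Fin.zero_eta, Fin.mk_one, Fin.reduceFinMk] at h2 <;>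
      (try rw [hx0] at h2)
    · have h3 : y + 2 * z = 0 := by
        have : (y + 2 * z) ^ 2 = 0 := by
          rw [hx0] at hw
          rw [hw] at h2
          linear_combination -h2
        simpa using this
      refine hT 0 (same_mk hp z ?_ ?_ ?_)
      · rw [← hx, hx0]; simp [T]
      · rw [← hy]; simp [T]; linear_combination h3
      · rw [← hz]; simp [T]
    · have : (-4 : ℂ) * (z * w) = 0 := by linear_combination h2
      simp [hz0, hw0] at this
    · have : y * w = 0 := by linear_combination -h2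
      simp [hy0, hw0] at this
    · have : y * z = 0 := by linear_combination -h2
      simp [hy0, hz0] at this
  · have hy0 : y = 0 := by simpa [E] using h1
    have hx0 : x ≠ 0 := fun h => hxy ⟨h, hy0⟩
    have hz0 : z ≠ 0 := fun h => hyz ⟨hy0, h⟩
    have hw0 : w ≠ 0 := fun h => hyw ⟨hy0, h⟩
    fin_cases j <;> simp only [E, Fin.zero_eta, Fin.mk_one, Fin.reduceFinMk] at h2 <;>
      (try rw [hy0] at h2)
    · have : 4 * (z * w) = 0 := by linear_combination h2
      simp [hz0, hw0] at this
    · have h3 : 2 * z + (1 + 2 * Complex.I) * x = 0 := by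
        have : (2 * z + (1 + 2 * Complex.I) * x) ^ 2 = 0 := by
          rw [hy0] at hw
          rw [hw] at h2
          linear_combination h2 + 4 * x ^ 2 * I2
        simpa using this
      refine hT 1 (same_mk hp (x / 2) ?_ ?_ ?_)
      · rw [← hx]; simp [T]
      · rw [← hy, hy0]; simp [T]
      · rw [← hz]; simp [T]; linear_combination h3 / 2
    · have : (3 - 4 * Complex.I) * (x * w) = 0 := by linear_combination -h2
      simp [hx0, hw0, c1] at this
    · have : (3 + 4 * Complex.I) * (x * z) = 0 := by linear_combination -h2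
      simp [hx0, hz0, c2] at this
  · have hz0 : z = 0 := by simpa [E] using h1
    have hx0 : x ≠ 0 := fun h => hxz ⟨h, hz0⟩
    have hy0 : y ≠ 0 := fun h => hyz ⟨h, hz0⟩
    have hw0 : w ≠ 0 := fun h => hzw ⟨hz0, h⟩
    fin_cases j <;> simp only [E, Fin.zero_eta, Fin.mk_one, Fin.reduceFinMk] at h2 <;>
      (try rw [hz0] at h2)
    · have : y * w = 0 := by linear_combination h2
      simp [hy0, hw0] at this
    · have : (3 - 4 * Complex.I) * (x * w) = 0 := by linear_combination h2
      simp [hx0, hw0, c1] at this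
    · have h3 : y + (2 - Complex.I) * x = 0 := by
        have : (y + (2 - Complex.I) * x) ^ 2 = 0 := by
          rw [hz0] at hw
          rw [hw] at h2
          linear_combination h2 + x ^ 2 * I2
        simpa using this
      refine hT 2 (same_mk hp x ?_ ?_ ?_)
      · rw [← hx]; simp [T]
      · rw [← hy]; simp [T]; linear_combination h3
      · rw [← hz, hz0]; simp [T]
    · have : (2 * Complex.I) * (x * y) = 0 := by linear_combination -h2
      simp [hx0, hy0] at this
  · have hw0 : w = 0 := by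
      have : E 3 false x y z w = w := rfl
      rw [← this]
      exact h1
    have hx0 : x ≠ 0 := fun h => hxw ⟨h, hw0⟩
    have hy0 : y ≠ 0 := fun h => hyw ⟨h, hw0⟩
    have hz0 : z ≠ 0 := fun h => hzw ⟨h, hw0⟩
    fin_cases j <;> simp only [E, Fin.zero_eta, Fin.mk_one, Fin.reduceFinMk] at h2 <;>
      (try rw [hw0] at h2)
    · have : y * z = 0 := by linear_combination h2
      simp [hy0, hz0] at this
    · have : (3 + 4 * Complex.I) * (x * z) = 0 := by linear_combination h2
      simp [hx0, hz0, c2] at this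
    · have : (2 * Complex.I) * (x * y) = 0 := by linear_combination h2
      simp [hx0, hy0] at this
    · have hz1 : z = -x - y := by linear_combination hw - hw0
      have h3 : y + (2 + Complex.I) * x = 0 := by
        have : (y + (2 + Complex.I) * x) ^ 2 = 0 := by
          rw [hz1] at h2
          linear_combination h2 + x ^ 2 * I2
        simpa using this
      refine hT 3 (same_mk hp x ?_ ?_ ?_)
      · rw [← hx]; simp [T]
      · rw [← hy]; simp [T]; linear_combination h3
      · rw [← hz]; simp [T]; linear_combination hz1 - h3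

include hp hT hP in
lemma no_two_conics (i j : Fin 4) (hij : i ≠ j) (h1 : eval p (F i true) = 0)
    (h2 : eval p (F j true) = 0) : False := by
  have hl : ∀ k, eval p (F k false) ≠ 0 := fun k h => no_line_conic hp hT hP k i h h1
  obtain ⟨x, hx⟩ : ∃ x, x = p 0 := ⟨_, rfl⟩
  obtain ⟨y, hy⟩ : ∃ y, y = p 1 := ⟨_, rfl⟩
  obtain ⟨z, hz⟩ : ∃ z, z = p 2 := ⟨_, rfl⟩
  obtain ⟨w, hw⟩ : ∃ w, w = -(x + y + z) := ⟨_, rfl⟩
  have hx0 : x ≠ 0 := by
    have := hl 0
    rw [eval_F, ← hx, ← hy, ← hz, ← hw] at this
    exact this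
  have hy0 : y ≠ 0 := by
    have := hl 1
    rw [eval_F, ← hx, ← hy, ← hz, ← hw] at this
    exact this
  have hz0 : z ≠ 0 := by
    have := hl 2
    rw [eval_F, ← hx, ← hy, ← hz, ← hw] at this
    exact this
  have hw0 : w ≠ 0 := by
    have := hl 3
    rw [eval_F, ← hx, ← hy, ← hz, ← hw] at this
    exact this
  rw [eval_F, ← hx, ← hy, ← hz, ← hw] at h1 h2
  have c1 : (3 - 4 * Complex.I) ≠ 0 := by
    intro h
    simpa using congrArg Complex.re h
  have c2 : (3 + 4 * Complex.I) ≠ 0 := by
    intro h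
    simpa using congrArg Complex.re h
  have c3 : (2 * Complex.I) ≠ 0 := by
    simp
  have R123 : (3 - 4 * Complex.I) * (x * E 0 true x y z w) - y * E 1 true x y z w +
      4 * (z * E 2 true x y z w) = 0 := by
    simp only [E]; ring
  have R124 : (3 + 4 * Complex.I) * (x * E 0 true x y z w) - y * E 1 true x y z w +
      4 * (w * E 3 true x y z w) = 0 := by
    simp only [E]; ring
  have R134 : (2 * Complex.I) * (x * E 0 true x y z w) - z * E 2 true x y z w +
      w * E 3 true x y z w = 0 := by
    simp only [E]; ring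
  have R234 : (2 * Complex.I) * (y * E 1 true x y z w) -
      (3 + 4 * Complex.I) * (z * E 2 true x y z w) +
      (3 - 4 * Complex.I) * (w * E 3 true x y z w) = 0 := by
    simp only [E]; ring
  -- the third and fourth conic vanish
  have k12 : E 0 true x y z w = 0 → E 1 true x y z w = 0 →
      E 2 true x y z w = 0 ∧ E 3 true x y z w = 0 := by
    intro a b
    rw [a, b] at R123 R124
    simp only [mul_zero, sub_self, zero_add] at R123 R124
    exact ⟨by simpa [hz0] using R123, by simpa [hw0] using R124⟩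
  have k13 : E 0 true x y z w = 0 → E 2 true x y z w = 0 →
      E 2 true x y z w = 0 ∧ E 3 true x y z w = 0 := by
    intro a b
    rw [a, b] at R134
    simp only [mul_zero, sub_self, zero_add] at R134
    exact ⟨b, by simpa [hw0] using R134⟩
  have k14 : E 0 true x y z w = 0 → E 3 true x y z w = 0 →
      E 2 true x y z w = 0 ∧ E 3 true x y z w = 0 := by
    intro a b
    rw [a, b] at R134
    simp only [mul_zero, zero_sub, add_zero] at R134
    exact ⟨by simpa [hz0] using R134, b⟩
  have k23 : E 1 true x y z w = 0 → E 2 true x y z w = 0 →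
      E 2 true x y z w = 0 ∧ E 3 true x y z w = 0 := by
    intro a b
    rw [a, b] at R234
    simp only [mul_zero, sub_self, zero_add] at R234
    exact ⟨b, by simpa [hw0, c1] using R234⟩
  have k24 : E 1 true x y z w = 0 → E 3 true x y z w = 0 →
      E 2 true x y z w = 0 ∧ E 3 true x y z w = 0 := by
    intro a b
    rw [a, b] at R234
    simp only [mul_zero, zero_sub, add_zero] at R234
    exact ⟨by simpa [hz0, c2] using R234, b⟩
  have key : E 2 true x y z w = 0 ∧ E 3 true x y z w = 0 := by
    fin_cases i <;> fin_cases j <;>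
      first
      | exact absurd rfl hij
      | exact k12 h1 h2
      | exact k12 h2 h1
      | exact k13 h1 h2
      | exact k13 h2 h1
      | exact k14 h1 h2
      | exact k14 h2 h1
      | exact k23 h1 h2
      | exact k23 h2 h1
      | exact k24 h1 h2
      | exact k24 h2 h1
      | exact ⟨h1, h2⟩
      | exact ⟨h2, h1⟩
  obtain ⟨e3, e4⟩ := key
  simp only [E] at e3 e4
  rw [hw] at e3
  have cub : (y + 5 * x) * ((y + (1 + 2 * Complex.I) * x) * (y + (1 - 2 * Complex.I) * x)) = 0 := by
    linear_combination (y + (3 + 4 * Complex.I) * x) * e3 +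
      (y + (3 - 4 * Complex.I) * x) * e4 - 4 * x ^ 2 * (x + y) * I2
  rcases mul_eq_zero.1 cub with h | h
  · have hz' : x * (z - x * (2 - Complex.I)) = 0 := by
      linear_combination ((2 + 4 * Complex.I) / 20) * e4 +
        ((2 + 4 * Complex.I) / 20) * (z + 2 * Complex.I * x) * h +
        (4 / 5 * x * z - 2 * x ^ 2) * I2
    replace hz' := (mul_eq_zero.1 hz').resolve_left hx0
    refine hP 1 (same_mk hp x ?_ ?_ ?_)
    · rw [← hx]; simp [P]
    · rw [← hy]; simp [P]; linear_combination h
    · rw [← hz]; simp [P]; linear_combination hz'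
  rcases mul_eq_zero.1 h with h | h
  · have hz' : x * (2 * z - x * (-1 + 3 * Complex.I)) = 0 := by
      linear_combination (-(1 - Complex.I) / 2) * e4 +
        (-(1 - Complex.I) / 2) * (z + 2 * Complex.I * x) * h +
        (x * z + x ^ 2 - 2 * Complex.I * x ^ 2) * I2
    replace hz' := (mul_eq_zero.1 hz').resolve_left hx0
    refine hP 2 (same_mk hp (x / 2) ?_ ?_ ?_)
    · rw [← hx]; simp [P]
    · rw [← hy]; simp [P]; linear_combination h
    · rw [← hz]; simp [P]; linear_combination hz' / 2
  · have hz' : x * (2 * z - x * (1 - Complex.I)) = 0 := by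
      linear_combination (-(1 - 3 * Complex.I) / 10) * e4 +
        (-(1 - 3 * Complex.I) / 10) * (z + 2 * Complex.I * x) * h +
        (9 / 5 * x * z - x ^ 2 + 6 / 5 * Complex.I * x ^ 2) * I2
    replace hz' := (mul_eq_zero.1 hz').resolve_left hx0
    refine hP 3 (same_mk hp (x / 2) ?_ ?_ ?_)
    · rw [← hx]; simp [P]
    · rw [← hy]; simp [P]; linear_combination h
    · rw [← hz]; simp [P]; linear_combination hz' / 2

include hp hT hP in
lemma other_F (i : Fin 4) (b : Bool) (j : Fin 4) (c : Bool) (h1 : eval p (F i b) = 0)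
    (h2 : eval p (F j c) = 0) : i = j ∧ b = c := by
  cases b <;> cases c
  · refine ⟨?_, rfl⟩
    by_contra hij
    rw [eval_F] at h1 h2
    obtain ⟨hxy, hxz, hxw, hyz, hyw, hzw⟩ := no_two_lines hp hP rfl rfl rfl rfl
    fin_cases i <;> fin_cases j <;>
      first
      | exact absurd rfl hij
      | exact hxy ⟨h1, h2⟩
      | exact hxy ⟨h2, h1⟩
      | exact hxz ⟨h1, h2⟩
      | exact hxz ⟨h2, h1⟩
      | exact hxw ⟨h1, h2⟩
      | exact hxw ⟨h2, h1⟩
      | exact hyz ⟨h1, h2⟩
      | exact hyz ⟨h2, h1⟩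
      | exact hyw ⟨h1, h2⟩
      | exact hyw ⟨h2, h1⟩
      | exact hzw ⟨h1, h2⟩
      | exact hzw ⟨h2, h1⟩
  · exact (no_line_conic hp hT hP i j h1 h2).elim
  · exact (no_line_conic hp hT hP j i h2 h1).elim
  · refine ⟨?_, rfl⟩
    by_contra hij
    exact no_two_conics hp hT hP i j hij h1 h2

end other

/-- The weak combinatorial type `W` is realizable: the arrangement of the four lines
`x = 0`, `y = 0`, `z = 0`, `w = 0`, where `w = -(x + y + z)`, and the four conics
`4zw + yw + yz = 0`, `-4zw + (3 - 4i)xw + (3 + 4i)xz = 0`, `-yw - (3 - 4i)xw + 2ixy = 0`,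
`-yz - (3 + 4i)xz - 2ixy = 0` has this type. -/
theorem result : ∃ (f : Fin 4 → Bool → R3) (T : Fin 4 → Fin 3 → ℂ) (P : Fin 9 → Fin 3 → ℂ),
    HasTypeW f T P :=
  ⟨F, T, P, conic_F, line_F, fun i b p hp _ => smooth_F i b p hp, T_ne, P_ne, distinct_P, through_T, tangent_T, through_P,
    transversal_P, fun _ hp hT hP i b j c h1 h2 => other_F hp hT hP i b j c h1 h2⟩

end Pool.Agent.Results.MP_0c03d4_ag.Realizable
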